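import Pool.Agent.H78.KP.Stmts
import Pool.Agent.H85.KG.AAG

/-!
# Project KP, module CVD: derivative and generator of the covariance with a linear function
-/

set_option autoImplicit false

open MeasureTheory Set Filter Topology
open scoped ContDiff

namespace Pool.Agent.H78.KP

open Pool.Agent.H84 Pool.Agent.H84.Sym Pool.Agent.H84.Sym.P2x Pool.Agent.H19.KL
open Pool.Agent.H73.KG Pool.Agent.H20.KH

theorem CVD_t3 {E : Type} [NormedAddCommGroup E] [InnerProductSpace ℝ E]
    [FiniteDimensional ℝ E] [MeasurableSpace E] [BorelSpace E] {U : E → ℝ} {t C : ℝ}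
    (hU : Pot U t C) {s : ℝ} (hs : 0 ≤ s) (θ : E) {u : E → ℝ} (hu : GC u) (v w : E) :
    cv (pw U s θ) u (fun x => (li v x - mn (pw U s θ) v) * (li w x - mn (pw U s θ) w)) =
      cv (pw U s θ) (fun x => u x * li v x) (li w) -
      pm U s θ u * cv (pw U s θ) (li v) (li w) -
      pm U s θ (li v) * cv (pw U s θ) u (li w) := by
  have hv := H85.KG.gc_lin v
  have hw := H85.KG.gc_lin w
  have e0 : mn (pw U s θ) v = pm U s θ (li v) := by
    unfold H73.KG.mn
    rw [H85.KG.int_pw hU hs]
  have e0' : mn (pw U s θ) w = pm U s θ (li w) := by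
    unfold H73.KG.mn
    rw [H85.KG.int_pw hU hs]
  rw [e0, e0']
  generalize ha : pm U s θ (li v) = a
  generalize hc : pm U s θ (li w) = c
  rw [H85.KG.cv_pw hU hs, H85.KG.cv_pw hU hs, H85.KG.cv_pw hU hs, H85.KG.cv_pw hU hs, ha, hc]
  have e1 : (fun x => u x * ((li v x - a) * (li w x - c))) = fun x =>
      (u x * li v x) * li w x + ((-c) * (u x * li v x) + ((-a) * (u x * li w x) +
        (a * c) * u x)) := by
    funext x
    ring
  have e2 : (fun x => (li v x - a) * (li w x - c)) = fun x =>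
      li v x * li w x + ((-c) * li v x + ((-a) * li w x + (a * c))) := by
    funext x
    ring
  have g4 : GC (fun x : E => (a * c) * u x) := (GC.const _).mul hu
  have g3 : GC (fun x : E => (-a) * (u x * li w x)) := (GC.const _).mul (hu.mul hw)
  have g2 : GC (fun x : E => (-c) * (u x * li v x)) := (GC.const _).mul (hu.mul hv)
  have g1 : GC (fun x : E => (u x * li v x) * li w x) := (hu.mul hv).mul hw
  have k4 : GC (fun _ : E => (a * c)) := GC.const _
  have k3 : GC (fun x : E => (-a) * li w x) := (GC.const _).mul hw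
  have k2 : GC (fun x : E => (-c) * li v x) := (GC.const _).mul hv
  have k1 : GC (fun x : E => li v x * li w x) := hv.mul hw
  rw [e1, e2, H85.KG.pm_add hU hs θ g1 (g2.add (g3.add g4)), H85.KG.pm_add hU hs θ g2 (g3.add g4),
    H85.KG.pm_add hU hs θ g3 g4, H85.KG.pm_add hU hs θ k1 (k2.add (k3.add k4)),
    H85.KG.pm_add hU hs θ k2 (k3.add k4), H85.KG.pm_add hU hs θ k3 k4,
    H85.KG.pm_const hU hs, H85.KG.pm_const_mul hU hs, H85.KG.pm_const_mul hU hs,
    H85.KG.pm_const_mul hU hs, H85.KG.pm_const_mul hU hs, H85.KG.pm_const_mul hU hs, ha, hc]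
  ring

theorem cvd_thm (E : Type) [NormedAddCommGroup E] [InnerProductSpace ℝ E]
    [FiniteDimensional ℝ E] [MeasurableSpace E] [BorelSpace E] (hRGC : RGCStmt E)
    (hRGP : RGPStmt E) : CVDStmt E := by
  intro U t hPP u hu ι _ b i
  obtain ⟨⟨C, hU⟩, hprob⟩ := id hPP
  obtain ⟨-, radd, rmul, -, rgen, -, rcongr⟩ := hRGC
  have gi := H85.KG.gc_lin (b i)
  have gn : GC (fun x => -li (b i) x) := by
    have := (GC.const (-1)).mul gi
    simpa only [neg_one_mul] using this
  have gui : GC (fun x => u x * li (b i) x) := hu.mul gi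
  obtain ⟨rui, dui, nui⟩ := hRGP U t hPP _ gui
  obtain ⟨ru, du, nu⟩ := hRGP U t hPP _ hu
  obtain ⟨rn, dn, nn⟩ := hRGP U t hPP _ gn
  have hcv : ∀ s θ, 0 ≤ s → pm U s θ (fun x => u x * li (b i) x) +
      pm U s θ u * pm U s θ (fun x => -li (b i) x) = cv (pw U s θ) u (li (b i)) := by
    intro s θ hs
    rw [H85.KG.cv_pw hU hs, H85.KG.AAG_neg hU hs]
    ring
  have r1 := rmul _ _ ru rn
  have r2 := radd _ _ rui r1
  refine ⟨rcongr _ _ r2 hcv, ?_, ?_⟩
  · intro s θ hs k
    have e3 : (fun θ => cv (pw U s θ) u (li (b i))) = fun θ =>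
        pm U s θ (fun x => u x * li (b i) x) +
        pm U s θ u * pm U s θ (fun x => -li (b i) x) := by
      funext θ
      exact (hcv s θ hs).symm
    obtain ⟨c1, c2⟩ := dui s θ (b k) hs
    obtain ⟨c3, c4⟩ := du s θ (b k) hs
    obtain ⟨c5, c6⟩ := dn s θ (b k) hs
    unfold D
    rw [e3, (c1.hasFDerivAt.fun_add (c3.hasFDerivAt.fun_mul c5.hasFDerivAt)).fderiv]
    simp only [add_apply, smul_apply, smul_eq_mul]
    rw [c2, c4, c6, CVD_t3 hU hs θ hu, H85.KG.AAG_neg hU hs]
    have f3 : cv (pw U s θ) (fun x => -li (b i) x) (li (b k)) =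
        -cv (pw U s θ) (li (b i)) (li (b k)) := by
      rw [H85.KG.cv_pw hU hs, H85.KG.cv_pw hU hs, H85.KG.AAG_neg hU hs]
      have f4 : (fun x => -li (b i) x * li (b k) x) = fun x => -(li (b i) x * li (b k) x) := by
        funext x
        ring
      rw [f4, H85.KG.AAG_neg hU hs]
      ring
    rw [f3]
    ring
  · intro s θ hs
    obtain ⟨a1, -⟩ := rgen _ _ U rui r1 ι b s θ hs
    obtain ⟨-, a2⟩ := rgen _ _ U ru rn ι b s θ hs
    have e1 : gen b U (fun s θ => cv (pw U s θ) u (li (b i))) s θ =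
        gen b U (fun s θ => pm U s θ (fun x => u x * li (b i) x) +
          pm U s θ u * pm U s θ (fun x => -li (b i) x)) s θ := by
      refine H85.KG.AAG_gen_congr b U ?_ ?_
      · filter_upwards [Ioi_mem_nhds hs] with r hr
        exact (hcv r θ (le_of_lt hr)).symm
      · funext θ
        exact (hcv s θ hs.le).symm
    rw [e1, a1, a2, nui ι b s θ hs, nu ι b s θ hs, nn ι b s θ hs]
    rw [mul_zero, mul_zero, zero_add, zero_add, zero_add, ← Finset.sum_neg_distrib]
    refine Finset.sum_congr rfl fun k _ => ?_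
    have f1 : D (b k) (fun θ => pm U s θ u) θ =
        cv (pw U s θ) u (li (b k)) := (du s θ (b k) hs.le).2
    have f2 : D (b k) (fun θ => pm U s θ (fun x => -li (b i) x)) θ =
        cv (pw U s θ) (fun x => -li (b i) x) (li (b k)) := (dn s θ (b k) hs.le).2
    have f5 : cm b (pw U s θ) i k = cv (pw U s θ) (li (b i)) (li (b k)) := rfl
    rw [f1, f2, f5]
    have f3 : cv (pw U s θ) (fun x => -li (b i) x) (li (b k)) =
        -cv (pw U s θ) (li (b i)) (li (b k)) := by
      rw [H85.KG.cv_pw hU hs.le, H85.KG.cv_pw hU hs.le, H85.KG.AAG_neg hU hs.le]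
      have f4 : (fun x => -li (b i) x * li (b k) x) = fun x => -(li (b i) x * li (b k) x) := by
        funext x
        ring
      rw [f4, H85.KG.AAG_neg hU hs.le]
      ring
    rw [f3]
    ring

end Pool.Agent.H78.KP
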