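import Pool.Agent.H78.KP.Stmts

/-!
# Project KP, module QCA: the covariance of the posterior measure and `qd`
-/

set_option autoImplicit false

open MeasureTheory Set Filter Topology
open scoped ContDiff Matrix

namespace Pool.Agent.H78.KP

open Pool.Agent.H84 Pool.Agent.H84.Sym Pool.Agent.H84.Sym.P2x Pool.Agent.H19.KL
open Pool.Agent.H73.KG Pool.Agent.H20.KH

theorem QCA_quad {ι : Type} [Fintype ι] (M : Matrix ι ι ℝ) (x : ι → ℝ) :
    x ⬝ᵥ (M *ᵥ x) ≤ Real.sqrt (∑ i, ∑ j, (M i j) ^ 2) * ∑ i, x i ^ 2 := by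
  have h0 : x ⬝ᵥ (M *ᵥ x) = ∑ p : ι × ι, M p.1 p.2 * (x p.1 * x p.2) := by
    rw [Fintype.sum_prod_type]
    unfold dotProduct Matrix.mulVec dotProduct
    refine Finset.sum_congr rfl fun i _ => ?_
    rw [Finset.mul_sum]
    refine Finset.sum_congr rfl fun j _ => ?_
    ring
  have h1 := Finset.sum_mul_sq_le_sq_mul_sq Finset.univ (fun p : ι × ι => M p.1 p.2)
    (fun p : ι × ι => x p.1 * x p.2)
  have h2 : ∑ p : ι × ι, (M p.1 p.2) ^ 2 = ∑ i, ∑ j, (M i j) ^ 2 := by
    rw [Fintype.sum_prod_type]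
  have h3 : ∑ p : ι × ι, (x p.1 * x p.2) ^ 2 = (∑ i, x i ^ 2) ^ 2 := by
    rw [Fintype.sum_prod_type, pow_two (∑ i, x i ^ 2), Finset.sum_mul_sum]
    refine Finset.sum_congr rfl fun i _ => Finset.sum_congr rfl fun j _ => ?_
    ring
  rw [h2, h3] at h1
  have h4 : 0 ≤ ∑ i, ∑ j, (M i j) ^ 2 :=
    Finset.sum_nonneg fun i _ => Finset.sum_nonneg fun j _ => sq_nonneg _
  have h5 : 0 ≤ ∑ i, x i ^ 2 := Finset.sum_nonneg fun i _ => sq_nonneg _
  rw [h0]
  refine le_trans (le_abs_self _) (abs_le_of_sq_le_sq ?_ (by positivity)) |>.trans le_rfl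
  rw [mul_pow, Real.sq_sqrt h4]
  exact h1

theorem qca_thm (E : Type) [NormedAddCommGroup E] [InnerProductSpace ℝ E]
    [FiniteDimensional ℝ E] [MeasurableSpace E] [BorelSpace E] (hMQB : MQBStmt E)
    (hPWB : PWBStmt E) (hBAS : BASStmt E) : QCAStmt E := by
  classical
  intro U t hPP hcov ι _ b r θ hr
  obtain ⟨ht1, -, -, -, -, hps, hcl⟩ := hBAS
  have ht0 : 0 < t := hPP.1.choose_spec.pos
  have hPr : PP (pw U r θ) t := ht1 _ _ _ ((hPWB U t hPP).1 r θ hr) ht0 (by linarith)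
  have hq0 : 0 ≤ qd b U r θ :=
    Finset.sum_nonneg fun i _ => Finset.sum_nonneg fun j _ => sq_nonneg _
  refine ⟨hq0, ?_, ?_⟩
  · have h1 : ∀ i j, (cm b (pw U r θ) i j - cm b U i j) ^ 2 ≤ 4 / t ^ 2 := by
      intro i j
      have a1 := (hMQB (pw U r θ) t hPr ι b i j i).1
      have a2 := (hMQB U t hPP ι b i j i).1
      rw [abs_le] at a1 a2
      have h2 : |cm b (pw U r θ) i j - cm b U i j| ≤ 2 * (1 / t) := by
        rw [abs_le]
        constructor <;> linarith
      have h3 : (2 * (1 / t)) ^ 2 = 4 / t ^ 2 := by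
        field_simp
        ring
      rw [← h3, ← sq_abs]
      gcongr
    calc qd b U r θ ≤ ∑ _i : ι, ∑ _j : ι, 4 / t ^ 2 :=
          Finset.sum_le_sum fun i _ => Finset.sum_le_sum fun j _ => h1 i j
      _ = 4 * (Fintype.card ι) ^ 2 / t ^ 2 := by
          simp only [Finset.sum_const, Finset.card_univ, nsmul_eq_mul]
          ring
  · refine hcl _ _ hPr ι b _ ?_
    have h1 := (hps U t hPP ι b).2 1 hcov
    have h2 : (Real.sqrt (qd b U r θ) • (1 : Matrix ι ι ℝ) -
        (cm b (pw U r θ) - cm b U)).PosSemidef := by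
      refine Matrix.PosSemidef.of_dotProduct_mulVec_nonneg ?_ fun x => ?_
      · have e1 : (Real.sqrt (qd b U r θ) • (1 : Matrix ι ι ℝ)).IsHermitian := by
          unfold Matrix.IsHermitian
          rw [Matrix.conjTranspose_smul, Matrix.conjTranspose_one]
          simp
        exact e1.sub ((hps _ _ hPr ι b).1.isHermitian.sub (hps _ _ hPP ι b).1.isHermitian)
      · have e2 : star x = x := by
          funext i
          simp
        rw [e2, Matrix.sub_mulVec, dotProduct_sub, Matrix.smul_mulVec, Matrix.one_mulVec,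
          dotProduct_smul, smul_eq_mul]
        have e3 : x ⬝ᵥ x = ∑ i, x i ^ 2 := by
          unfold dotProduct
          refine Finset.sum_congr rfl fun i _ => ?_
          ring
        rw [e3]
        have e4 := QCA_quad (cm b (pw U r θ) - cm b U) x
        have e5 : ∑ i, ∑ j, ((cm b (pw U r θ) - cm b U) i j) ^ 2 = qd b U r θ := rfl
        rw [e5] at e4
        linarith
    have h3 := h1.add h2
    have h4 : (1:ℝ) • (1 : Matrix ι ι ℝ) - cm b U + (Real.sqrt (qd b U r θ) • (1 : Matrix ι ι ℝ) -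
        (cm b (pw U r θ) - cm b U)) = (1 + Real.sqrt (qd b U r θ)) • (1 : Matrix ι ι ℝ) -
        cm b (pw U r θ) := by
      rw [add_smul]
      abel
    rw [h4] at h3
    exact h3

end Pool.Agent.H78.KP
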