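import Pool.Agent.H78.KP.Stmts

/-!
# Project KP, module TC5: variance of Lipschitz functions, covariance at most one
-/

set_option autoImplicit false

open MeasureTheory Set Filter Topology
open scoped ContDiff

namespace Pool.Agent.H78.KP

open Pool.Agent.H84 Pool.Agent.H84.Sym Pool.Agent.H84.Sym.P2x Pool.Agent.H19.KL
open Pool.Agent.H73.KG Pool.Agent.H20.KH

theorem TC5_L (n : ℕ) : L1 n = Real.exp (L2 n) ∧ 1 ≤ L2 n ∧ 2 ≤ L1 n := by
  have h0 : (2.7182818286 : ℝ) < L1 n := by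
    unfold L1
    have h1 : Real.log ((2:ℝ) ^ 4) ≤ Real.log ((n:ℝ) + 16) := by
      apply Real.log_le_log (by norm_num)
      have : (0:ℝ) ≤ n := Nat.cast_nonneg n
      linarith
    rw [Real.log_pow] at h1
    have := Real.log_two_gt_d9
    push_cast at h1
    linarith
  have h1 : 0 < L1 n := by linarith
  refine ⟨(Real.exp_log h1).symm, ?_, by linarith⟩
  unfold L2
  rw [Real.le_log_iff_exp_le h1]
  linarith [Real.exp_one_lt_d9]

theorem tc5_thm (hTH5 : TH5Stmt)
    (hGBI : ∀ (E : Type) [NormedAddCommGroup E] [InnerProductSpace ℝ E]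
      [FiniteDimensional ℝ E] [MeasurableSpace E] [BorelSpace E], GBIStmt E)
    (hVLS : VLSStmt)
    (hBAS : ∀ (E : Type) [NormedAddCommGroup E] [InnerProductSpace ℝ E]
      [FiniteDimensional ℝ E] [MeasurableSpace E] [BorelSpace E], BASStmt E)
    (hFPI : FPIStmt)
    (hPWB : ∀ (E : Type) [NormedAddCommGroup E] [InnerProductSpace ℝ E]
      [FiniteDimensional ℝ E] [MeasurableSpace E] [BorelSpace E], PWBStmt E)
    (hCVR : ∀ (E : Type) [NormedAddCommGroup E] [InnerProductSpace ℝ E]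
      [FiniteDimensional ℝ E] [MeasurableSpace E] [BorelSpace E], CVRStmt E)
    (hBAY : ∀ (E : Type) [NormedAddCommGroup E] [InnerProductSpace ℝ E]
      [FiniteDimensional ℝ E] [MeasurableSpace E] [BorelSpace E], BAYStmt E)
    (hRGC : ∀ (E : Type) [NormedAddCommGroup E] [InnerProductSpace ℝ E]
      [FiniteDimensional ℝ E] [MeasurableSpace E] [BorelSpace E], RGCStmt E)
    (hFPB : ∀ (E : Type) [NormedAddCommGroup E] [InnerProductSpace ℝ E]
      [FiniteDimensional ℝ E] [MeasurableSpace E] [BorelSpace E], FPBStmt E) : TC5Stmt := by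
  obtain ⟨c, C0, hc0, hc1, hC0, hV⟩ := hVLS
  obtain ⟨C1, hC1, hG⟩ := hTH5 c hc0 hc1
  refine ⟨20 * C1 + C0, by linarith, ?_⟩
  intro E _ _ _ _ _ U t hU hcov f hf hf1
  have hGB := hG E
  set n : ℕ := Module.finrank ℝ E with hn
  obtain ⟨hL, hL2, hL1⟩ := TC5_L n
  have hprod : 1 ≤ L1 n * L2 n := by nlinarith
  have hprod0 : 0 < L1 n * L2 n := by linarith
  set s : ℝ := c / (L1 n * L2 n) with hs
  have hs0 : 0 < s := by positivity
  set b := stdOrthonormalBasis ℝ E with hb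
  obtain ⟨⟨p, hp1, hE⟩, hvar⟩ := hV E U t hU hcov _ b s hs0 le_rfl
  have hvar' := hvar f hf hf1
  -- the constant `g`
  set g : ℝ := C1 * L2 n ^ 5 with hg
  have hM1 : 1 ≤ L2 n ^ 5 := one_le_pow₀ hL2
  have hg0 : 0 ≤ g := by positivity
  -- growth of `f`
  have hGr1 : Gr (fun x => ‖fderiv ℝ f x‖) :=
    Gr.of_bdd (A := 1) fun x => by rw [abs_of_nonneg (norm_nonneg _)]; exact hf1 x
  have hGr : Gr f := by
    have h1 : Gr (fun x : E => |f 0| + ‖x‖) := Gr.add (Gr.of_bdd (A := |(|f 0|)|) fun _ => le_rfl) Gr.nrm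
    refine Gr.of_le h1 fun x => ?_
    have h2 : ‖f x - f 0‖ ≤ 1 * ‖x - 0‖ :=
      Convex.norm_image_sub_le_of_norm_fderiv_le (s := univ)
        (fun x _ => (hf.differentiable (by norm_num)) x) (fun x _ => hf1 x) convex_univ
        (mem_univ _) (mem_univ _)
    rw [sub_zero, one_mul, Real.norm_eq_abs] at h2
    rw [abs_of_nonneg (by positivity : 0 ≤ |f 0| + ‖x‖)]
    have h3 : |f x| ≤ |f x - f 0| + |f 0| := by
      have := abs_add_le (f x - f 0) (f 0)
      simpa using this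
    linarith
  have hfGC : GC f := ⟨hf.continuous, hGr⟩
  -- the posterior measures
  have hpt : ∀ θ : E, 0 ≤ FP p (cm b (pw U s θ)) ∧ cv (pw U s θ) f f ≤
      (3 + (4 / 3) ^ p * FP p (cm b (pw U s θ))) * (2 * g) := by
    intro θ
    obtain ⟨ht1, -, hpc, -, -, hps, hcl⟩ := hBAS E
    have ht0 : 0 < t := hU.1.choose_spec.pos
    have h1 : PP (pw U s θ) (s / 2) :=
      ht1 _ _ _ ((hPWB E U t hU).1 s θ hs0.le) (by linarith) (by linarith)
    have h2 := hps _ _ h1 _ b
    have h3 := hFPI _ _ h2.1 p hp1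
    have h4 : CovLe (pw U s θ) (3 + (4 / 3) ^ p * FP p (cm b (pw U s θ))) :=
      hcl _ _ h1 _ b _ h3.2.2.2.2
    have h5 : 1 ≤ 3 + (4 / 3) ^ p * FP p (cm b (pw U s θ)) := by
      have := h3.1
      have : 0 ≤ (4 / 3 : ℝ) ^ p * FP p (cm b (pw U s θ)) := by positivity
      linarith
    have h6 := (hGBI E).2 (s / 2) g hGB hg0 (pw U s θ) _ h1 (by linarith) h4
    have h7 := hpc _ _ h1 f hf hGr hGr1 _ h6
    refine ⟨h3.1, h7.trans ?_⟩
    have h8 : ∫ x, ‖fderiv ℝ f x‖ ^ 2 ∂(mu (pw U s θ)) ≤ 1 := by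
      have := h1.2
      calc ∫ x, ‖fderiv ℝ f x‖ ^ 2 ∂(mu (pw U s θ)) ≤ ∫ _x, (1:ℝ) ∂(mu (pw U s θ)) := by
            apply integral_mono_of_nonneg
            · exact Filter.Eventually.of_forall fun x => by positivity
            · exact integrable_const _
            · refine Filter.Eventually.of_forall fun x => ?_
              have := hf1 x
              have h0 := norm_nonneg (fderiv ℝ f x)
              change ‖fderiv ℝ f x‖ ^ 2 ≤ 1
              nlinarith
        _ = 1 := by simp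
    set a := 3 + (4 / 3) ^ p * FP p (cm b (pw U s θ)) with ha
    have h9 : 0 ≤ g * (a + 1) := by
      have : 0 ≤ a + 1 := by linarith
      positivity
    calc _ ≤ g * (a + 1) * 1 := by gcongr
      _ ≤ a * (2 * g) := by nlinarith
  have hGCF : GC (fun θ => FP p (cm b (pw U s θ))) :=
    ((hRGC E).2.2.2.2.2.1 _ (hFPB E U t hU _ b p hp1).1 s hs0).1
  have hGCl : GC (fun θ => (3 + (4 / 3) ^ p * FP p (cm b (pw U s θ))) ^ ((3:ℝ) / 2)) := by
    have h0 : GC (fun θ => 3 + (4 / 3) ^ p * FP p (cm b (pw U s θ))) :=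
      (GC.const _).add ((GC.const _).mul hGCF)
    have h1 : GC (fun θ => (3 + (4 / 3) ^ p * FP p (cm b (pw U s θ))) ^ 2) := h0.sq
    refine ⟨?_, Gr.of_le h1.2 fun θ => ?_⟩
    · exact h0.1.rpow_const fun _ => Or.inr (by norm_num)
    · have h2 := (hpt θ).1
      have h3 : 1 ≤ 3 + (4 / 3) ^ p * FP p (cm b (pw U s θ)) := by
        have : 0 ≤ (4 / 3 : ℝ) ^ p * FP p (cm b (pw U s θ)) := by positivity
        linarith
      rw [abs_of_nonneg (by positivity), abs_of_nonneg (by positivity)]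
      have h4 := Real.rpow_le_rpow_of_exponent_le h3 (show (3:ℝ) / 2 ≤ 2 by norm_num)
      have h5 : (3 + (4 / 3) ^ p * FP p (cm b (pw U s θ))) ^ (2:ℝ) =
          (3 + (4 / 3) ^ p * FP p (cm b (pw U s θ))) ^ 2 := by
        rw [← Real.rpow_natCast]
        norm_num
      rw [h5] at h4
      exact h4
  have hGCc : GC (fun θ => cv (pw U s θ) f f) :=
    ((hRGC E).2.2.2.2.2.1 _ (hCVR E U t hU f f hfGC hfGC) s hs0).1
  obtain ⟨-, -, hmul, -, hmono, -, -⟩ := hBAY E U t hU s hs0.le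
  have hEc : EX U s (fun θ => cv (pw U s θ) f f) ≤ 20 * g := by
    calc EX U s (fun θ => cv (pw U s θ) f f)
        ≤ EX U s (fun θ => (2 * g) *
          (3 + (4 / 3) ^ p * FP p (cm b (pw U s θ))) ^ ((3:ℝ) / 2)) := by
          refine hmono _ _ hGCc ((GC.const _).mul hGCl) fun θ => ?_
          obtain ⟨h1, h2⟩ := hpt θ
          refine h2.trans ?_
          rw [mul_comm]
          have h3 : 1 ≤ 3 + (4 / 3) ^ p * FP p (cm b (pw U s θ)) := by
            have : 0 ≤ (4 / 3 : ℝ) ^ p * FP p (cm b (pw U s θ)) := by positivity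
            linarith
          have h4 := Real.rpow_le_rpow_of_exponent_le h3 (show (1:ℝ) ≤ 3 / 2 by norm_num)
          rw [Real.rpow_one] at h4
          gcongr
      _ = (2 * g) *
          EX U s (fun θ => (3 + (4 / 3) ^ p * FP p (cm b (pw U s θ))) ^ ((3:ℝ) / 2)) := hmul _ _
      _ ≤ (2 * g) * 10 := by gcongr
      _ = _ := by ring
  calc cv U f f ≤ EX U s (fun θ => cv (pw U s θ) f f) + C0 := hvar'
    _ ≤ 20 * g + C0 := by linarith
    _ ≤ 20 * (C1 * L2 n ^ 5) + C0 * L2 n ^ 5 := by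
        have h1 : C0 ≤ C0 * L2 n ^ 5 := by nlinarith
        linarith
    _ = (20 * C1 + C0) * L2 n ^ 5 := by ring

end Pool.Agent.H78.KP
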